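import Pool.Agent.H97.QCL.PSG

set_option autoImplicit false

open NumberField IsDedekindDomain Pool.Agent.H32.QC

namespace Pool.Agent.H97.QCL

theorem pf_BIM : T_BIM := by
  intro L _ _ hNI a b c ha hb hc
  by_cases hs : IsSquare a
  · rw [hil_one.2 (sol_sq hs), hil_one.2 (sol_sq hs), hil_one.2 (sol_sq hs), one_mul]
  obtain ⟨N, hN, hm⟩ := hNI a ha hs
  have h1 := hm (Units.mk0 b hb)
  have h2 := hm (Units.mk0 c hc)
  have h3 := hm (Units.mk0 b hb * Units.mk0 c hc)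
  rw [Subgroup.mul_mem_iff_of_index_two hN, h1, h2] at h3
  rw [Units.val_mul, Units.val_mk0, Units.val_mk0] at h3
  by_cases hb' : Sol a b
  · by_cases hc' : Sol a c
    · rw [hil_one.2 hb', hil_one.2 hc', hil_one.2 (h3.1 ⟨fun _ => hc', fun _ => hb'⟩), one_mul]
    · rw [hil_one.2 hb', hil_neg.2 hc', hil_neg.2 fun h => hc' ((h3.2 h).1 hb'), one_mul]
  · by_cases hc' : Sol a c
    · rw [hil_neg.2 hb', hil_one.2 hc', hil_neg.2 fun h => hb' ((h3.2 h).2 hc'), mul_one]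
    · rw [hil_neg.2 hb', hil_neg.2 hc', hil_one.2 (h3.1 ⟨fun h => absurd h hb', fun h =>
        absurd h hc'⟩)]
      norm_num

end Pool.Agent.H97.QCL
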