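import Pool.Agent.H97.QCL.PSG

set_option autoImplicit false

open NumberField IsDedekindDomain Pool.Agent.H32.QC

namespace Pool.Agent.H97.QCL

theorem exists_not_mem {G : Type} [Group G] (N : Subgroup G) (h : N.index = 2) : ∃ x, x ∉ N := by
  by_contra hc
  push Not at hc
  have : N = ⊤ := (Subgroup.eq_top_iff' N).2 hc
  rw [this, Subgroup.index_top] at h
  norm_num at h

theorem pf_NDG : T_NDG := by
  intro L _ _ hNI t u ht hu hts hus
  obtain ⟨N, hN, hm⟩ := hNI t ht hts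
  obtain ⟨N', hN', hm'⟩ := hNI u hu hus
  obtain ⟨x, hx⟩ := exists_not_mem N hN
  obtain ⟨y, hy⟩ := exists_not_mem N' hN'
  have key : ∀ z : Lˣ, z ∉ N → z ∉ N' → ∃ z : L, z ≠ 0 ∧ hil t z = -1 ∧ hil u z = -1 :=
    fun z h1 h2 => ⟨z, z.ne_zero, hil_neg.2 fun h => h1 ((hm z).2 h),
      hil_neg.2 fun h => h2 ((hm' z).2 h)⟩
  by_cases hx' : x ∈ N'
  · by_cases hy' : y ∈ N
    · refine key (x * y) ?_ ?_
      · rw [Subgroup.mul_mem_cancel_right _ hy']
        exact hx
      · rw [Subgroup.mul_mem_cancel_left _ hx']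
        exact hy
    · exact key y hy' hy
  · exact key x hx hx'

end Pool.Agent.H97.QCL
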