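import Pool.Agent.H32.QC.TargetsL

set_option autoImplicit false

open NumberField IsDedekindDomain Pool.Agent.H32.QC

namespace Pool.Agent.H97.QCL

section field

variable {L : Type*} [Field L]

theorem hil_one {a b : L} : hil a b = 1 ↔ Sol a b := by
  unfold hil
  split_ifs with h
  · simp [h]
  · simp [h]

theorem hil_neg {a b : L} : hil a b = -1 ↔ ¬ Sol a b := by
  unfold hil
  split_ifs with h
  · simp [h]
  · simp [h]

theorem hil_pm (a b : L) : hil a b = 1 ∨ hil a b = -1 := by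
  by_cases h : Sol a b
  · exact Or.inl (hil_one.2 h)
  · exact Or.inr (hil_neg.2 h)

theorem hil_congr {a b c d : L} (h : Sol a b ↔ Sol c d) : hil a b = hil c d := by
  by_cases h1 : Sol a b
  · rw [hil_one.2 h1, hil_one.2 (h.1 h1)]
  · rw [hil_neg.2 h1, hil_neg.2 fun h2 => h1 (h.2 h2)]

theorem sol_symm {a b : L} (h : Sol a b) : Sol b a := by
  obtain ⟨x, y, z, h0, h1⟩ := h
  refine ⟨y, x, z, ?_, by rw [h1]; ring⟩
  rcases h0 with h | h | h
  · exact Or.inr (Or.inl h)
  · exact Or.inl h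
  · exact Or.inr (Or.inr h)

theorem hil_symm (a b : L) : hil a b = hil b a := hil_congr ⟨sol_symm, sol_symm⟩

theorem sol_sq {a b : L} (h : IsSquare a) : Sol a b := by
  obtain ⟨r, rfl⟩ := h
  exact ⟨1, 0, r, Or.inl one_ne_zero, by ring⟩

theorem sol_mul {a b c : L} (hc : c ≠ 0) (hb : b ≠ 0) (h : IsSquare (b * c)) (h1 : Sol a b) :
    Sol a c := by
  obtain ⟨r, hr⟩ := h
  have hr0 : r ≠ 0 := by
    rintro rfl
    rw [mul_zero] at hr
    exact mul_ne_zero hb hc hr
  obtain ⟨x, y, z, h0, h2⟩ := h1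
  refine ⟨x, y * (r / c), z, ?_, ?_⟩
  · rcases h0 with h | h | h
    · exact Or.inl h
    · exact Or.inr (Or.inl (mul_ne_zero h (div_ne_zero hr0 hc)))
    · exact Or.inr (Or.inr h)
  · rw [h2]
    have : b = r * r / c := by rw [← hr, mul_div_cancel_right₀ _ hc]
    rw [this]
    field_simp

theorem hil_mul {a b c : L} (hc : c ≠ 0) (hb : b ≠ 0) (h : IsSquare (b * c)) :
    hil a b = hil a c :=
  hil_congr ⟨sol_mul hc hb h, sol_mul hb hc (by rwa [mul_comm])⟩

end field

theorem pf_PSG : T_PSG := by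
  intro K _ _ v a b ha hb
  cases v with
  | inl v =>
    refine ⟨hil_pm _ _, hil_symm _ _, fun h => hil_one.2 (sol_sq h), fun c hc h => ?_⟩
    have h' : IsSquare (ic v (b * c)) := h
    rw [map_mul] at h'
    exact hil_mul ((map_ne_zero _).2 hc) ((map_ne_zero _).2 hb) h'
  | inr φ =>
    refine ⟨hil_pm _ _, hil_symm _ _, fun h => hil_one.2 (sol_sq h), fun c hc h => ?_⟩
    have h' : IsSquare (φ (b * c)) := h
    rw [map_mul] at h'
    exact hil_mul ((map_ne_zero _).2 hc) ((map_ne_zero _).2 hb) h'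

end Pool.Agent.H97.QCL
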