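import Pool.Agent.H32.QC.TargetsL

set_option autoImplicit false

open NumberField IsDedekindDomain Pool.Agent.H32.QC

namespace Pool.Agent.H97.QCL

theorem pf_QUA (hTER : T_TER) : T_QUA := by
  intro L _ h2 hNI a ha hs
  obtain ⟨y, z, w, h⟩ := hTER L h2 hNI (a 0) (a 1) (a 2) (-(a 3)) (ha 0) (ha 1) (ha 2)
    (neg_ne_zero.2 (ha 3)) (by
      rw [Fin.prod_univ_four] at hs
      rw [mul_neg, neg_neg]
      exact hs)
  refine ⟨![y, z, w, 1], fun h0 => ?_, ?_⟩
  · have := congrFun h0 3
    simp at this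
  · rw [Fin.sum_univ_four]
    simp only [Matrix.cons_val]
    linear_combination h

end Pool.Agent.H97.QCL
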